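import Pool.Agent.E8helper15.FT.Stm
import Pool.Agent.TH876.TT.Bad

/-!
# Project FT (MP_c59389_nt), piece BAD: the bad primes are finite in number
-/

set_option autoImplicit false

namespace Pool.Agent.E8helper14.FT

open NumberField IsDedekindDomain
open Pool.Agent.TH876.FH (badNorm GoodAt)

theorem t_BAD : Pool.Agent.E8helper15.FT.S_BAD := by
  intro K _ _ E hE
  have hf : {v : HeightOneSpectrum (𝓞 K) | ¬ GoodAt v E}.Finite := Pool.Agent.TH876.TT.bad K E hE
  have hne : ∀ v : HeightOneSpectrum (𝓞 K), 1 ≤ (Ideal.absNorm v.asIdeal : ℝ) := by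
    intro v
    have h0 : Ideal.absNorm v.asIdeal ≠ 0 := by
      rw [Ne, Ideal.absNorm_eq_zero_iff]
      exact v.ne_bot
    exact_mod_cast Nat.one_le_iff_ne_zero.2 h0
  have hb : badNorm E = ∏ v ∈ hf.toFinset, (Ideal.absNorm v.asIdeal : ℝ) := by
    unfold badNorm
    rw [finprod_mem_eq_finite_toFinset_prod _ hf]
  refine ⟨hf.toFinset, ?_, ?_, ?_⟩
  · intro v
    rw [Set.Finite.mem_toFinset]
    rfl
  · rw [hb, Real.log_prod]
    intro v _
    exact (lt_of_lt_of_le zero_lt_one (hne v)).ne'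
  · rw [hb]
    apply Real.log_nonneg
    refine Finset.prod_induction (fun v : HeightOneSpectrum (𝓞 K) => (Ideal.absNorm v.asIdeal : ℝ))
      (fun r => (1 : ℝ) ≤ r) ?_ le_rfl (fun v _ => hne v)
    intro a b ha hb'
    nlinarith

end Pool.Agent.E8helper14.FT
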